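import Pool.Agent.Lib.MP_005d25_co.Final

set_option autoImplicit false

namespace Pool.Agent.Results.MP_005d25_co.PartialThreeTrees

/-- `G` is a partial `3`-tree: it is a subgraph of a graph `H` on the same vertices whose vertices
can be ordered so that the earlier `H`-neighbours of every vertex form an `H`-clique with at most
three elements. -/
def IsPartialThreeTree {V : Type} (G : SimpleGraph V) : Prop :=
  ∃ (H : SimpleGraph V) (r : V → ℕ), G ≤ H ∧ Function.Injective r ∧
    ∀ v, {u | H.Adj u v ∧ r u < r v}.encard ≤ 3 ∧ H.IsClique {u | H.Adj u v ∧ r u < r v}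

/-- Every consistent signed graph of unbalanced girth `k` whose underlying graph is a partial
`3`-tree admits a homomorphism to the signed projective cube `SPC_{k-1}`. -/
theorem result : ∀ (k : ℕ) (V : Type) [Fintype V] (G : SimpleGraph V) (σ : Sym2 V → ZMod 2),
      IsPartialThreeTree G →
      (∀ (v : V) (c : G.Walk v v), c.IsCycle → (c.edges.map σ).sum = 0 → Even c.length) →
      (∀ (v w : V) (c : G.Walk v v) (c' : G.Walk w w), c.IsCycle → c'.IsCycle →
        (c.edges.map σ).sum = 1 → (c'.edges.map σ).sum = 1 →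
        (Even c.length ↔ Even c'.length)) →
      (∃ (v : V) (c : G.Walk v v), c.IsCycle ∧ (c.edges.map σ).sum = 1 ∧ c.length = k) →
      (∀ (v : V) (c : G.Walk v v), c.IsCycle → (c.edges.map σ).sum = 1 → k ≤ c.length) →
      ∃ φ : G →g SimpleGraph.fromRel (fun x y : Fin (k - 1) → ZMod 2 =>
              (∃ i, y - x = Pi.single i (1 : ZMod 2)) ∨ y - x = (fun _ => (1 : ZMod 2))),
        ∃ (τ : V → ZMod 2) (ρ : (Fin (k - 1) → ZMod 2) → ZMod 2),
          ∀ u v, G.Adj u v →
            σ s(u, v) + τ u + τ v =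
              (if φ v - φ u = (fun _ => (1 : ZMod 2)) then (1 : ZMod 2) else 0)
                + ρ (φ u) + ρ (φ v) := by
  intro k V _ G σ hG h1 h2 h3 h4
  obtain ⟨H, r, hGH, hr, hB⟩ := hG
  obtain ⟨v0, c0, hc0, hs0, hl0⟩ := h3
  have hk : 3 ≤ k := by rw [← hl0]; exact hc0.three_le_length
  have heven : ∀ n : ℕ, Even n → ((n : ℕ) : ZMod 2) = 0 := fun n hn =>
    (ZMod.natCast_eq_zero_iff_even).2 hn
  have hodd : ∀ n : ℕ, ¬ Even n → ((n : ℕ) : ZMod 2) = 1 := fun n hn =>
    (ZMod.natCast_eq_one_iff_odd).2 (Nat.not_even_iff_odd.1 hn)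
  have hparc : ∀ (v : V) (c : G.Walk v v), c.IsCycle →
      ((c.length : ℕ) : ZMod 2) = k * Lib.MP_005d25_co.sgn σ c := by
    intro v c hc
    unfold Lib.MP_005d25_co.sgn
    rcases Lib.MP_005d25_co.zmod2_cases ((c.edges.map σ).sum) with hs | hs
    · rw [hs, mul_zero]
      exact heven _ (h1 v c hc hs)
    · rw [hs, mul_one]
      have h5 := h2 v v0 c c0 hc hc0 hs hs0
      rw [hl0] at h5
      by_cases h6 : Even c.length
      · rw [heven _ h6, heven _ (h5.1 h6)]
      · rw [hodd _ h6, hodd _ (fun h7 => h6 (h5.2 h7))]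
  have hcl := Lib.MP_005d25_co.closed_walk σ k hparc h4
  obtain ⟨d, d0, ds, dt, dp, de, dG⟩ := Lib.MP_005d25_co.exists_metric (G := G) σ k (by omega)
    (fun v c => (hcl _ v c rfl).1) (fun v c => (hcl _ v c rfl).2)
  obtain ⟨f, hf⟩ := Lib.MP_005d25_co.exists_embedding H r hr hB k d d0 ds dt dp de
  refine Lib.MP_005d25_co.to_projective_cube σ k hk f ?_
  intro u v huv
  rw [hf u v (hGH huv)]
  exact dG u v huv

end Pool.Agent.Results.MP_005d25_co.PartialThreeTrees
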